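import Pool.Agent.V8Lead.OR.Fin2

set_option autoImplicit false

/-!
# MP_ec260d_nt: no holonomic relations between consecutive ordinates, on almost all blocks
-/

namespace Pool.Agent.Results.MP_ec260d_nt.HolonomicRelations

open Filter Polynomial

/-- the multiplicity of `s` as a zero of the Riemann zeta function -/
noncomputable def mult (s : ℂ) : ℕ := analyticOrderNatAt riemannZeta s

/-- the number of nontrivial zeros of the zeta function with ordinate in `(0, t]`, counted with multiplicity -/
noncomputable def zeroCount (t : ℝ) : ℕ :=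
  ∑ᶠ s ∈ {s : ℂ | riemannZeta s = 0 ∧ 0 < s.re ∧ s.re < 1 ∧ 0 < s.im ∧ s.im ≤ t}, mult s

/-- `gam n`, `n ≥ 1`: the `n`-th positive ordinate, in nondecreasing order, repeated according to multiplicity: the
least `t` with at least `n` zeros of ordinate in `(0, t]` -/
noncomputable def gam (n : ℕ) : ℝ := sInf {t : ℝ | n ≤ zeroCount t}

/-- the block of the `B` positions from `n` on satisfies, up to `ε / log (gam n)`, a linear relation of order at most
`k` whose coefficients are polynomials of degree at most `e` in the position, with a right-hand side that is a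
polynomial of degree at most `d` in the position; some coefficient has absolute value at least `1` at some position of
the block -/
def Related (k e d B : ℕ) (ε : ℝ) (n : ℕ) : Prop :=
  ∃ (c : ℕ → ℝ[X]) (P : ℝ[X]), (∀ j ≤ k, (c j).natDegree ≤ e) ∧ P.natDegree ≤ d ∧
    (∃ j ≤ k, ∃ i < B, 1 ≤ |(c j).eval (i : ℝ)|) ∧
    ∀ i < B, |∑ j ∈ Finset.range (k + 1), (c j).eval (i : ℝ) * gam (n + i + j) - P.eval (i : ℝ)| <
      ε / Real.log (gam n)

/-- **on almost all blocks the ordinates satisfy no holonomic relation** -/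
theorem result (k e d : ℕ) (θ : ℝ) (hθ : 0 < θ) :
    ∃ (B : ℕ) (ε : ℝ), e < B ∧ 0 < ε ∧ ∀ᶠ N : ℕ in atTop,
      ({n : ℕ | 1 ≤ n ∧ n ≤ N ∧ Related k e d B ε n}.ncard : ℝ) ≤ θ * N := by
  classical
  obtain ⟨B, ε, h1, h2, h3⟩ := Pool.Agent.V8Lead.OR.hol Pool.Agent.V8Lead.OR.sa Pool.Agent.V8Lead.OR.sl
    Pool.Agent.V8Lead.OR.st Pool.Agent.V8Lead.OR.sc k e d θ hθ
  refine ⟨B, ε, h1, h2, ?_⟩
  filter_upwards [h3] with N hN
  refine le_trans (le_of_eq ?_) hN
  rw [← Set.ncard_coe_finset]
  congr 2
  ext n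
  rw [Finset.coe_filter, Set.mem_ofPred_eq, Set.mem_ofPred_eq, Finset.mem_Icc, and_assoc]
  rfl

end Pool.Agent.Results.MP_ec260d_nt.HolonomicRelations
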