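import Pool.Agent.V8H7.SM.FH

/-!
# Sums and linear forms in the ordinates keep away from the critical zeros with positive proportion

No hypothesis is assumed. Let `Γ` be the set of the positive ordinates of the zeros of zeta, on the critical line or not. Say that
`t` is `r`-free when there is no zero in the open disc of radius `r` around `1 / 2 + i t`; then `1 / 2 + i t'` is no zero for
`|t' - t| < r`.

1. Let `A` be a set of at least `η T log T` reals in `[-K T, K T]` with at most `K` points in every interval of length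
`1 / log T`. For all `z` in `[-K T, K T]` outside of few unit intervals (a `1`-separated set of exceptions has at most `T ^ ε`
elements) at least `c #A` of the sums `x + z`, `x` in `A`, are `κ / log T`-free. Here `c`, `κ` depend only on `ε`, `K`, `η`.

2. The same for the numbers `r γ + z`, `γ` in `A`, for every set `A` of at least `η T log T` ordinates up to `T`, `r ≠ 0`. No
separation is assumed.

3. If `g(s)`, `s` in `S`, are reals in `[-K T, K T]` with at most `#S / T ^ ε` of them in every unit interval, then for at least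
`c #A #S` of the pairs `(γ, s)` the number `r γ + g(s)` is `κ / log T`-free. So for a positive proportion of the pairs the
relation `γ₀ = r γ + g(s)` fails, in this strong form, for all ordinates `γ₀` of critical zeros; `g` may be any function of
further ordinates with this property, linear or not.

4. Let `a₁, …, aₘ` be nonzero reals, `m ≥ 2`. For all sets `A₁, …, Aₘ` of at least `η T log T` ordinates up to `T` and all
`|h| ≤ K T`, for at least `c #A₁ ⋯ #Aₘ` of the tuples the number `a₁ γ₁ + ⋯ + aₘ γₘ + h` is `κ / log T`-free.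

Proof. On `[T, 2 T]` the mollified zeta function is, up to a small error, a Dirichlet polynomial of length a bit more than `T`
with first coefficient `1` and no other coefficients up to a power of `T`. Its mean over `x` in `A` at `x + z` is `1` plus
Dirichlet polynomials in `z`, one for each dyadic block of `n`, with the sums of `n ^ (-i x)` over `A` in the coefficients. The
mean value theorem over sparse sets of points, for the `r`-th power of this polynomial, `r` the least exponent for which the power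
is longer than `T`, and its dual, for the coefficients, bound the mean over `z` in `Z`; for `#Z ≥ T ^ ε` this saves a power of
`T`. So for some `z` the mean over `x` has absolute value at least `7 / 8`. The sum over `x` of the mean square of the mollified
function over the discs of radius about `1 / log T` around `1 / 2 + i (x + z)` is at most a constant times `#A` (Selberg). Hence
for a positive proportion of `x` the function has absolute value at least `1 / 4` at the centre and is bounded on the disc, and by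
the Schwarz lemma it has no zero near the centre. For 2 the ordinates in clusters are removed by the exponential bound for their
number, 3 and 4 follow by counting.
-/

set_option autoImplicit false

open Complex

namespace Pool.Agent.Results.MP_ec260d_nt.SumsAvoidZeros

/-- the set of the positive ordinates of the zeros of the Riemann zeta function -/
def Γ : Set ℝ := {γ : ℝ | 0 < γ ∧ ∃ β : ℝ, riemannZeta (β + γ * I) = 0}

/-- there is no zero of zeta in the open disc of radius `r` around `1 / 2 + i t` -/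
def Free (r t : ℝ) : Prop := ∀ ρ : ℂ, riemannZeta ρ = 0 → r ≤ ‖ρ - (1 / 2 + t * I)‖

/-- the zeros with positive ordinate are in the open strip -/
lemma strip {s : ℂ} (h0 : riemannZeta s = 0) (him : 0 < s.im) : 0 < s.re ∧ s.re < 1 := by
  constructor
  · by_contra hcon
    push Not at hcon
    have him' : (1 - s).im ≠ 0 := by
      rw [Complex.sub_im, Complex.one_im]
      linarith
    have h1 : ∀ n : ℕ, (1 - s) ≠ -(n : ℂ) := by
      intro n h
      apply him'
      rw [h]
      simp
    have h2 : (1 - s) ≠ 1 := by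
      intro h
      apply him'
      rw [h]
      simp
    have h3 := riemannZeta_one_sub h1 h2
    rw [sub_sub_cancel, h0] at h3
    have hz : riemannZeta (1 - s) ≠ 0 := by
      apply riemannZeta_ne_zero_of_one_le_re
      rw [Complex.sub_re, Complex.one_re]
      linarith
    have hG : Complex.Gamma (1 - s) ≠ 0 := Complex.Gamma_ne_zero h1
    have hc : Complex.cos (Real.pi * (1 - s) / 2) ≠ 0 := by
      intro hc
      rw [Complex.cos_eq_zero_iff] at hc
      obtain ⟨k, hk⟩ := hc
      apply him'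
      have hpi : (Real.pi : ℂ) ≠ 0 := by exact_mod_cast Real.pi_ne_zero
      have h4 : (1 - s) = ((2 * k + 1 : ℤ) : ℂ) := by
        have h5 : (Real.pi : ℂ) * (1 - s) = (Real.pi : ℂ) * ((2 * k + 1 : ℤ) : ℂ) := by
          push_cast
          linear_combination 2 * hk
        exact mul_left_cancel₀ hpi h5
      rw [h4]
      exact Complex.intCast_im _
    have hp : ((2 : ℂ) * Real.pi) ^ (-(1 - s)) ≠ 0 := by
      rw [Ne, Complex.cpow_eq_zero_iff]
      rintro ⟨h5, -⟩
      have hpi : (Real.pi : ℂ) ≠ 0 := by exact_mod_cast Real.pi_ne_zero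
      exact (mul_ne_zero two_ne_zero hpi) h5
    exact (mul_ne_zero (mul_ne_zero (mul_ne_zero (mul_ne_zero two_ne_zero hp) hG) hc) hz) h3.symm
  · by_contra hcon
    push Not at hcon
    exact riemannZeta_ne_zero_of_one_le_re hcon h0

lemma mem_Γ {γ : ℝ} (h : γ ∈ Γ) : Pool.Agent.V8H7.SM.Ordi γ := by
  obtain ⟨h1, β, h2⟩ := h
  have him : ((β : ℂ) + γ * I).im = γ := by simp
  have h3 := strip h2 (by rw [him]; exact h1)
  exact ⟨h1, _, h2, h3.1, h3.2, him⟩

open Classical in
theorem result :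
    (∀ ε K η : ℝ, 0 < ε → 1 ≤ K → 0 < η → ∃ c κ T₀ : ℝ, 0 < c ∧ 0 < κ ∧ ∀ T : ℝ, T₀ ≤ T → ∀ A : Finset ℝ,
      (∀ x ∈ A, |x| ≤ K * T) →
      (∀ u : ℝ, ((A.filter (fun x => u ≤ x ∧ x ≤ u + 1 / Real.log T)).card : ℝ) ≤ K) →
      η * T * Real.log T ≤ A.card →
      ∀ Z : Finset ℝ, (∀ z ∈ Z, |z| ≤ K * T) → (∀ z ∈ Z, ∀ z' ∈ Z, z ≠ z' → 1 ≤ |z - z'|) →
      (∀ z ∈ Z, ((A.filter (fun x => Free (κ / Real.log T) (x + z))).card : ℝ) < c * A.card) →
      (Z.card : ℝ) ≤ T ^ ε) ∧
    (∀ r ε K η : ℝ, r ≠ 0 → 0 < ε → 0 < η → ∃ c κ T₀ : ℝ, 0 < c ∧ 0 < κ ∧ ∀ T : ℝ, T₀ ≤ T → ∀ A : Finset ℝ,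
      (∀ γ ∈ A, γ ∈ Γ ∧ γ ≤ T) → η * T * Real.log T ≤ A.card →
      ∀ Z : Finset ℝ, (∀ z ∈ Z, |z| ≤ K * T) → (∀ z ∈ Z, ∀ z' ∈ Z, z ≠ z' → 1 ≤ |z - z'|) →
      (∀ z ∈ Z, ((A.filter (fun γ => Free (κ / Real.log T) (r * γ + z))).card : ℝ) < c * A.card) →
      (Z.card : ℝ) ≤ T ^ ε) ∧
    (∀ r ε K η : ℝ, r ≠ 0 → 0 < ε → 0 < η → ∃ c κ T₀ : ℝ, 0 < c ∧ 0 < κ ∧ ∀ T : ℝ, T₀ ≤ T → ∀ A : Finset ℝ,
      (∀ γ ∈ A, γ ∈ Γ ∧ γ ≤ T) → η * T * Real.log T ≤ A.card →
      ∀ (ι : Type) (S : Finset ι) (g : ι → ℝ), (∀ s ∈ S, |g s| ≤ K * T) →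
      (∀ u : ℝ, ((S.filter (fun s => u ≤ g s ∧ g s < u + 1)).card : ℝ) ≤ S.card / T ^ ε) →
      c * (A.card * S.card) ≤ (((A ×ˢ S).filter (fun p => Free (κ / Real.log T) (r * p.1 + g p.2))).card : ℝ)) ∧
    (∀ (m : ℕ) (a : Fin m → ℝ) (K η : ℝ), 2 ≤ m → (∀ i, a i ≠ 0) → 0 < η →
      ∃ c κ T₀ : ℝ, 0 < c ∧ 0 < κ ∧ ∀ T : ℝ, T₀ ≤ T → ∀ A : Fin m → Finset ℝ,
      (∀ i, ∀ γ ∈ A i, γ ∈ Γ ∧ γ ≤ T) → (∀ i, η * T * Real.log T ≤ (A i).card) → ∀ h : ℝ, |h| ≤ K * T →
      c * ∏ i, ((A i).card : ℝ) ≤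
        (((Fintype.piFinset A).filter (fun x => Free (κ / Real.log T) (∑ i, a i * x i + h))).card : ℝ)) := by
  refine ⟨?_, ?_, ?_, ?_⟩
  · intro ε K η hε hK hη
    obtain ⟨c, κ, T₀, hc, hκ, h⟩ := Pool.Agent.V8H7.SM.gen ε K η hε hK hη
    exact ⟨c, κ, T₀, hc, hκ, fun T hT A hAK hs hA Z hZ hZs hb => h T hT A hAK hs hA Z hZ hZs hb⟩
  · intro r ε K η hr hε hη
    obtain ⟨c, κ, T₀, hc, hκ, h⟩ := Pool.Agent.V8H7.SM.ord1 r ε K η hr hε hη
    exact ⟨c, κ, T₀, hc, hκ, fun T hT A hA hAc Z hZ hZs hb =>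
      h T hT A (fun γ hγ => ⟨mem_Γ (hA γ hγ).1, (hA γ hγ).2⟩) hAc Z hZ hZs hb⟩
  · intro r ε K η hr hε hη
    obtain ⟨c, κ, T₀, hc, hκ, h⟩ := Pool.Agent.V8H7.SM.ord_prod r ε K η hr hε hη
    exact ⟨c, κ, T₀, hc, hκ, fun T hT A hA hAc ι S g hg hS =>
      h T hT A (fun γ hγ => ⟨mem_Γ (hA γ hγ).1, (hA γ hγ).2⟩) hAc ι S g hg hS⟩
  · intro m a K η hm ha hη
    obtain ⟨c, κ, T₀, hc, hκ, h⟩ := Pool.Agent.V8H7.SM.ord2 m a K η hm ha hη
    exact ⟨c, κ, T₀, hc, hκ, fun T hT A hA hAc x hx =>
      h T hT A (fun i γ hγ => ⟨mem_Γ (hA i γ hγ).1, (hA i γ hγ).2⟩) hAc x hx⟩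

end Pool.Agent.Results.MP_ec260d_nt.SumsAvoidZeros
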