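import Pool.Agent.V8Lead.OR.Fin3

set_option autoImplicit false

/-!
# MP_ec260d_nt: two different systems of translates of the ordinates are never matched
-/

namespace Pool.Agent.Results.MP_ec260d_nt.TranslatesNeverMatch

open Filter MeasureTheory

/-- the multiplicity of `s` as a zero of the Riemann zeta function -/
noncomputable def mult (s : ℂ) : ℕ := analyticOrderNatAt riemannZeta s

/-- the number of nontrivial zeros of the zeta function with ordinate in `(0, t]`, counted with multiplicity -/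
noncomputable def zeroCount (t : ℝ) : ℕ :=
  ∑ᶠ s ∈ {s : ℂ | riemannZeta s = 0 ∧ 0 < s.re ∧ s.re < 1 ∧ 0 < s.im ∧ s.im ≤ t}, mult s

/-- `gam n`, `n ≥ 1`: the `n`-th positive ordinate, in nondecreasing order, repeated according to multiplicity: the
least `t` with at least `n` zeros of ordinate in `(0, t]`; `gam 0 = 0` -/
noncomputable def gam (n : ℕ) : ℝ := sInf {t : ℝ | n ≤ zeroCount t}

/-- `σ` matches the point `gam n + a i` of the first system with a point `gam n' + b i'` of the second one, up to the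
distance `δ` -/
def Matched {k : ℕ} (a b : Fin k → ℝ) (σ : Fin k × ℕ → Fin k × ℕ) (δ : ℝ) (p : Fin k × ℕ) : Prop :=
  |(gam p.2 + a p.1) - (gam (σ p).2 + b (σ p).1)| ≤ δ

/-- the points `gam n + a i` of the first system in `(t, t + h]` not matched by `σ` up to `δ` -/
def unmatched {k : ℕ} (a b : Fin k → ℝ) (σ : Fin k × ℕ → Fin k × ℕ) (δ t h : ℝ) : Set (Fin k × ℕ) :=
  {p | 1 ≤ p.2 ∧ t < gam p.2 + a p.1 ∧ gam p.2 + a p.1 ≤ t + h ∧ ¬ Matched a b σ δ p}

/-- **translates of the ordinates are never matched** -/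
theorem result (k : ℕ) (a b : Fin k → ℝ) (hab : ∀ π : Equiv.Perm (Fin k), a ≠ b ∘ π) (m : ℕ) (w θ : ℝ) (hθ : 0 < θ) :
    ∃ H : ℝ, 0 < H ∧ ∀ᶠ T : ℝ in atTop, ∀ σ : Fin k × ℕ → Fin k × ℕ,
      Set.InjOn σ {p | 1 ≤ p.2 ∧ Matched a b σ (w / Real.log T) p} →
      volume.real {t : ℝ | T ≤ t ∧ t ≤ 2 * T ∧
        (unmatched a b σ (w / Real.log T) t (H / Real.log T)).ncard < m} ≤ θ * T := by
  obtain ⟨H, h1, h2⟩ := Pool.Agent.V8Lead.OR.mt k a b hab m w θ hθ
  refine ⟨H, h1, ?_⟩
  filter_upwards [h2] with T hT σ hσ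
  refine le_trans (le_of_eq ?_) (hT σ hσ)
  congr 1
  ext t
  simp only [Set.mem_setOf_eq, unmatched, Matched, not_le]
  rfl

end Pool.Agent.Results.MP_ec260d_nt.TranslatesNeverMatch
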