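import Pool.Agent.V8H7.ORD.Cnt
import Pool.Agent.V8H7.ORD.Poly

/-!
# Half of the ordinates satisfy no polynomial relation with the nearby ordinates

No hypothesis is assumed. Let `Γ` be the set of the positive ordinates of the zeros of zeta. For `0 < r ≤ 1 / 3` let `G r` be
the set of the ordinates `γ > 1` such that every other ordinate, of a zero on the line or not, is at distance more than `r / 2`
mean spacings `2π / log γ`.

1. For `0 < r ≤ 1 / 3` and `ε > 0` the set `G r` contains at least `((3 p(r) - 1) / 2 - ε) N(T)` of the ordinates up to `T`,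
`T` large, where `p(r) = 1 - (c_MT⁻¹ - 1) / K(r)²` with the Montgomery-Taylor constant and kernel, and `N(T)` counts all zeros
with multiplicity, so that `N(T)` is at least the number of the ordinates up to `T`. For `r = 1 / 20` this is more than half of
all ordinates.

2. For every nonzero polynomial `P` in two variables with real coefficients there is `κ > 0` such that for every `r > 0` the
relation `P(γ, γ') = 0` has only finitely many solutions in ordinates `γ ≠ γ'` with `γ` in `G r` and `|γ' - γ| ≤ κ`.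

Proof. The starting theorem `H295Iso.iso_short` bounds from below the number of the simple critical zeros without another zero
in a small box around them. The zeros outside of the boxes which can be at a small distance in height are off the line; they
come in pairs with the same height, each height is close to the height of at most one isolated zero, and all of them together
are at most the zeros which are not isolated. This gives 1. Near the diagonal the zeros `(x, y)` of `P` with `y ≠ x` satisfy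
`|y - x|^r x ≤ K`, which gives 2.
-/

set_option autoImplicit false

open Filter Topology Complex

namespace Pool.Agent.Results.MP_ec260d_nt.WellSpacedHalf

open Pool.Agent.V8H7.ORD

/-- the set of the positive ordinates of the zeros of the Riemann zeta function -/
def Γ : Set ℝ := {γ : ℝ | 0 < γ ∧ ∃ β : ℝ, riemannZeta (β + γ * I) = 0}

/-- the number of the zeros `s` of zeta with `0 < Re s < 1` and `0 < Im s ≤ T`, counted with multiplicity -/
noncomputable def N (T : ℝ) : ℕ :=
  ∑ᶠ s ∈ {s : ℂ | riemannZeta s = 0 ∧ 0 < s.re ∧ s.re < 1 ∧ 0 < s.im ∧ s.im ≤ T},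
    analyticOrderNatAt riemannZeta s

/-- the ordinates at distance more than `r / 2` mean spacings from all the other ordinates -/
def G (r : ℝ) : Set ℝ :=
  {γ : ℝ | γ ∈ Γ ∧ 1 < γ ∧ ∀ γ' ∈ Γ, γ' ≠ γ → r / 2 * (2 * Real.pi / Real.log γ) < |γ' - γ|}

/-- the Montgomery-Taylor kernel at `r` times the mean spacing -/
noncomputable def K (r : ℝ) : ℝ :=
  (∫ t in (-1 / 2 : ℝ)..(1 / 2), Real.cos (Real.sqrt 2 * t) * Real.cos (2 * Real.pi * r * t)) /
    (Real.sqrt 2 * Real.sin (1 / Real.sqrt 2))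

/-- the Montgomery-Taylor constant -/
noncomputable def cMT : ℝ :=
  Real.sqrt 2 * Real.tan (1 / Real.sqrt 2) / (1 + Real.tan (1 / Real.sqrt 2) / Real.sqrt 2)

/-- the lower bound for the proportion of the isolated zeros -/
noncomputable def p (r : ℝ) : ℝ := 1 - (cMT⁻¹ - 1) / K r ^ 2

lemma K_eq (r : ℝ) : K r = H344.KK r := by
  have h := H370.GramAux.kap_re_mul (2 * Real.pi * r)
  have hd := H370.GramAux.den_pos.ne'
  unfold K H344.KK
  rw [← h, mul_div_cancel_left₀ _ hd]

lemma cMT_inv : cMT⁻¹ = H370.cMTinv := H370.cMTinv_eq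

lemma c0_one : H295Iso.c0 1 = H370.cMTinv := by
  have h2 := H228SI.constS 1 one_pos le_rfl
  have h5 : H295SI.cc 1 = H370.cMTinv := by
    unfold H295SI.cc H370.cMTinv
    rfl
  rw [mul_one, h5] at h2
  unfold H295Iso.c0
  rw [← h2]

/-- the zeros with positive ordinate are in the open strip -/
lemma strip {s : ℂ} (h0 : riemannZeta s = 0) (him : 0 < s.im) : 0 < s.re ∧ s.re < 1 := by
  constructor
  · by_contra hcon
    push Not at hcon
    have him' : (1 - s).im ≠ 0 := by
      rw [Complex.sub_im, Complex.one_im]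
      linarith
    have h1 : ∀ n : ℕ, (1 - s) ≠ -(n : ℂ) := by
      intro n h
      apply him'
      rw [h]
      simp
    have h2 : (1 - s) ≠ 1 := by
      intro h
      apply him'
      rw [h]
      simp
    have h3 := riemannZeta_one_sub h1 h2
    rw [sub_sub_cancel, h0] at h3
    have hz : riemannZeta (1 - s) ≠ 0 := by
      apply riemannZeta_ne_zero_of_one_le_re
      rw [Complex.sub_re, Complex.one_re]
      linarith
    have hG : Complex.Gamma (1 - s) ≠ 0 := Complex.Gamma_ne_zero h1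
    have hc : Complex.cos (Real.pi * (1 - s) / 2) ≠ 0 := by
      intro hc
      rw [Complex.cos_eq_zero_iff] at hc
      obtain ⟨k, hk⟩ := hc
      apply him'
      have hpi : (Real.pi : ℂ) ≠ 0 := by exact_mod_cast Real.pi_ne_zero
      have h4 : (1 - s) = ((2 * k + 1 : ℤ) : ℂ) := by
        have h5 : (Real.pi : ℂ) * (1 - s) = (Real.pi : ℂ) * ((2 * k + 1 : ℤ) : ℂ) := by
          push_cast
          linear_combination 2 * hk
        exact mul_left_cancel₀ hpi h5
      rw [h4]
      exact Complex.intCast_im _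
    have hp : ((2 : ℂ) * Real.pi) ^ (-(1 - s)) ≠ 0 := by
      rw [Ne, Complex.cpow_eq_zero_iff]
      rintro ⟨h5, -⟩
      have hpi : (Real.pi : ℂ) ≠ 0 := by exact_mod_cast Real.pi_ne_zero
      exact (mul_ne_zero two_ne_zero hpi) h5
    exact (mul_ne_zero (mul_ne_zero (mul_ne_zero (mul_ne_zero two_ne_zero hp) hG) hc) hz) h3.symm
  · by_contra hcon
    push Not at hcon
    exact riemannZeta_ne_zero_of_one_le_re hcon h0

lemma mem_Γ {γ : ℝ} : γ ∈ Γ ↔ 0 < γ ∧ IsOrd riemannZeta γ := by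
  constructor
  · rintro ⟨h1, β, h2⟩
    have him : ((β : ℂ) + γ * I).im = γ := by simp
    have h3 := strip h2 (by rw [him]; exact h1)
    exact ⟨h1, _, h2, h3.1, h3.2, him⟩
  · rintro ⟨h1, s, h2, h3, h4, h5⟩
    refine ⟨h1, s.re, ?_⟩
    rw [← h5, Complex.re_add_im]
    exact h2

lemma N_eq (T : ℝ) : N T = H370.NN riemannZeta 0 T := by
  have h : {s : ℂ | riemannZeta s = 0 ∧ 0 < s.re ∧ s.re < 1 ∧ 0 < s.im ∧ s.im ≤ T} =
      H370.zset riemannZeta 0 T := by
    ext s
    simp only [H370.zset, Set.mem_ofPred_eq]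
    tauto
  unfold N H370.NN H370.mult
  rw [h]

lemma Γ_upTo_finite (T : ℝ) : {γ | γ ∈ Γ ∧ γ ≤ T}.Finite := by
  refine ((H370.zeta_zeros_finite T).image Complex.im).subset ?_
  rintro γ ⟨h1, h2⟩
  obtain ⟨h3, s, h4, h5, h6, h7⟩ := mem_Γ.1 h1
  exact ⟨s, ⟨h5, h6, by rw [h7]; exact h3, by rw [h7]; exact h2, h4⟩, h7⟩

/-- `N(T)` is at least the number of the ordinates up to `T` -/
lemma card_le_N (T : ℝ) : {γ | γ ∈ Γ ∧ γ ≤ T}.ncard ≤ N T := by
  classical
  have hfin := H370.zeta_zeros_finite T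
  rw [N_eq]
  unfold H370.NN
  rw [finsum_mem_eq_finite_toFinset_sum _ hfin]
  have h1 : {γ | γ ∈ Γ ∧ γ ≤ T} ⊆ ((hfin.toFinset.image Complex.im : Finset ℝ) : Set ℝ) := by
    rintro γ ⟨h1, h2⟩
    obtain ⟨h3, s, h4, h5, h6, h7⟩ := mem_Γ.1 h1
    rw [Finset.coe_image]
    refine ⟨s, ?_, h7⟩
    rw [Set.Finite.coe_toFinset]
    exact ⟨h5, h6, by rw [h7]; exact h3, by rw [h7]; exact h2, h4⟩
  refine (Set.ncard_le_ncard h1 (Finset.finite_toSet _)).trans ?_
  rw [Set.ncard_coe_finset]
  refine Finset.card_image_le.trans ?_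
  rw [Finset.card_eq_sum_ones]
  refine Finset.sum_le_sum fun s hs => ?_
  rw [Set.Finite.mem_toFinset] at hs
  exact H370.Loc.mult_pos' H370.good_zeta hs.2.2.1 hs.2.2.2.2

/-- the spaced ordinates up to `X` -/
lemma count (r c' : ℝ) (hr0 : 0 < r) (hr : r ≤ 1 / 3) (hc0 : 0 ≤ c')
    (hc : c' < (3 * p r - 1) / 2) :
    ∃ T₀ : ℝ, ∀ T : ℝ, T₀ ≤ T → c' * (N T : ℝ) ≤ ({γ | γ ∈ G r ∧ γ ≤ T}.ncard : ℝ) := by
  classical
  have hpi := Real.pi_pos
  set ε : ℝ := ((3 * p r - 1) / 2 - c') / 2 with hε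
  have hε0 : 0 < ε := by rw [hε]; linarith
  obtain ⟨T0, hT0⟩ := block H370.good_zeta hr0.le hr hε0
  have hpeq : 1 - (H295Iso.c0 1 - 1) / H344.KK r ^ 2 = p r := by
    unfold p
    rw [c0_one, cMT_inv, K_eq]
  rw [hpeq] at hT0
  -- the counting function, cut at `1`
  set P : ℝ → ℝ → ℕ := fun a b => PP riemannZeta (Real.pi * r) (max a 1) b with hP
  have hmax : ∀ a : ℝ, 1 ≤ a → max a 1 = a := fun a ha => max_eq_left ha
  obtain ⟨X0, hX0⟩ := H370.dyadic_zero H370.good_zeta H370.zeta_zeros_finite P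
    (fun a b c ha hab hbc => by
      simp only [hP]
      rw [hmax a ha, hmax b (ha.trans hab)]
      exact PP_add H370.good_zeta _ ha hab hbc)
    (fun a X ha => by
      simp only [hP]
      rw [max_eq_right (zero_le_one : (0 : ℝ) ≤ 1)]
      unfold PP
      refine Set.ncard_le_ncard ?_ (WW_finite (H370.zset_finite H370.good_zeta _ _ le_rfl) _)
      rintro t ⟨h1, h2⟩
      exact ⟨(le_max_right _ _).trans_lt h1, h2⟩)
    ((3 * p r - 1) / 2 - ε) c' (max T0 1) hc0 (by rw [hε]; linarith)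
    (fun T hT => by
      simp only [hP]
      rw [hmax T ((le_max_right _ _).trans hT)]
      exact hT0 T ((le_max_left _ _).trans hT))
  refine ⟨X0, fun T hT => ?_⟩
  have h1 := hX0 T hT
  rw [← N_eq] at h1
  refine h1.trans ?_
  simp only [hP]
  rw [max_eq_right (zero_le_one : (0 : ℝ) ≤ 1)]
  unfold PP
  have h2 : WW riemannZeta (Real.pi * r) 1 T ⊆ {γ | γ ∈ G r ∧ γ ≤ T} := by
    rintro t ⟨h2, h3, h4, h5⟩
    have ht0 : 0 < t := by linarith
    refine ⟨⟨mem_Γ.2 ⟨ht0, h4⟩, h2, ?_⟩, h3⟩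
    intro t' ht' hne
    have h6 := h5 t' (mem_Γ.1 ht').2 hne
    have e : r / 2 * (2 * Real.pi / Real.log t) = Real.pi * r / Real.log t := by ring
    rw [e]
    exact h6
  have h3 : {γ | γ ∈ G r ∧ γ ≤ T}.Finite :=
    (Γ_upTo_finite T).subset fun γ hγ => ⟨hγ.1.1, hγ.2⟩
  exact_mod_cast Set.ncard_le_ncard h2 h3

/-- the numerical value for `r = 1 / 20` -/
lemma p_twentieth : (1 : ℝ) / 2 < (3 * p (1 / 20) - 1) / 2 := by
  have h1 := H344.KK_lower (1 / 20)
  have h2 := H344.cMTinv_le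
  have h3 := H344.KK_le_one (1 / 20)
  have hpi := Real.pi_lt_d2
  have hpi0 := Real.pi_pos
  have h4 := H370.cMTinv_gt_one
  unfold p
  rw [cMT_inv, K_eq]
  set c := H370.cMTinv with hc
  set k := H344.KK (1 / 20) with hk
  have h5 : (2 * Real.pi * (1 / 20)) ^ 2 / 2 * (c - 5 / 4) ≤ 0.00397 := by
    have h6 : (2 * Real.pi * (1 / 20)) ^ 2 / 2 ≤ 0.04962 := by nlinarith
    have h7 : 0 ≤ (2 * Real.pi * (1 / 20)) ^ 2 / 2 := by positivity
    nlinarith
  have h8 : 0.99603 ≤ k := by linarith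
  have h9 : 0.99207 ≤ k ^ 2 := by nlinarith
  have h10 : (c - 1) / k ^ 2 ≤ 0.33 / 0.99207 := by
    apply div_le_div₀ (by norm_num) (by linarith) (by norm_num) h9
  have h11 : (0.33 : ℝ) / 0.99207 < 1 / 3 := by norm_num
  linarith

/-- polynomial relations with nearby ordinates -/
lemma relations (P : MvPolynomial (Fin 2) ℝ) (hP : P ≠ 0) : ∃ κ : ℝ, 0 < κ ∧ ∀ r : ℝ, 0 < r →
    {z : ℝ × ℝ | z.1 ∈ G r ∧ z.2 ∈ Γ ∧ z.2 ≠ z.1 ∧ |z.2 - z.1| ≤ κ ∧
      MvPolynomial.eval ![z.1, z.2] P = 0}.Finite := by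
  obtain ⟨κ, hκ, k, K, hK, h⟩ := near_diag P hP
  refine ⟨κ, hκ, fun r hr => ?_⟩
  have hpi := Real.pi_pos
  -- for large `x` a solution is closer than the spacing
  have hlim : ∀ᶠ x : ℝ in atTop, K * Real.log x ^ k < (Real.pi * r) ^ k * x := by
    have h1 : (fun x : ℝ => Real.log x ^ k) =o[atTop] (fun x : ℝ => x) :=
      Real.isLittleO_pow_log_id_atTop
    have h2 := h1.bound (show 0 < (Real.pi * r) ^ k / (2 * (K + 1)) by positivity)
    filter_upwards [h2, eventually_gt_atTop (1 : ℝ)] with x hx hx1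
    have hx0 : 0 < x := by linarith
    rw [Real.norm_of_nonneg (pow_nonneg (Real.log_nonneg hx1.le) _),
      Real.norm_of_nonneg hx0.le] at hx
    have h3 : 0 < (Real.pi * r) ^ k := by positivity
    calc K * Real.log x ^ k ≤ K * ((Real.pi * r) ^ k / (2 * (K + 1)) * x) :=
          mul_le_mul_of_nonneg_left hx hK
      _ = (Real.pi * r) ^ k * x * (K / (2 * (K + 1))) := by ring
      _ < (Real.pi * r) ^ k * x * 1 := by
          apply mul_lt_mul_of_pos_left _ (by positivity)
          rw [div_lt_one (by positivity)]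
          linarith
      _ = (Real.pi * r) ^ k * x := by ring
  obtain ⟨X0, hX0⟩ := hlim.exists_forall_of_atTop
  set X : ℝ := max X0 1 with hX
  refine ((Γ_upTo_finite X).prod (Γ_upTo_finite (X + κ))).subset ?_
  rintro ⟨γ, γ'⟩ ⟨h1, h2, h3, h4, h5⟩
  simp only at h1 h2 h3 h4 h5
  have hγX : γ ≤ X := by
    by_contra hcon
    push Not at hcon
    have hγ1 : 1 < γ := h1.2.1
    have h6 := hX0 γ ((le_max_left _ _).trans hcon.le)
    have h7 := h γ hγ1.le γ' h3 h4 h5
    have h8 := h1.2.2 γ' h2 h3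
    have hlog : 0 < Real.log γ := Real.log_pos hγ1
    have e : r / 2 * (2 * Real.pi / Real.log γ) = Real.pi * r / Real.log γ := by ring
    rw [e] at h8
    have h9 : (Real.pi * r / Real.log γ) ^ k ≤ |γ' - γ| ^ k :=
      pow_le_pow_left₀ (by positivity) h8.le k
    have h10 : (Real.pi * r / Real.log γ) ^ k * γ ≤ K :=
      (mul_le_mul_of_nonneg_right h9 (by linarith)).trans h7
    rw [div_pow, div_mul_eq_mul_div, div_le_iff₀ (by positivity)] at h10
    linarith
  refine ⟨⟨h1.1, hγX⟩, h2, ?_⟩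
  have := (abs_le.1 h4).2
  linarith

/-- **Half of the ordinates of the zeta zeros satisfy no polynomial relation with the nearby ordinates.**

(1) For `0 < r ≤ 1 / 3` and `0 ≤ c < (3 p(r) - 1) / 2` the set `G r` of the ordinates at distance more than `r / 2` mean
spacings from all others contains at least `c N(T)` ordinates up to `T`, for all large `T`. Here `N(T)`, the number of the
zeros with multiplicity, is at least the number of all ordinates up to `T`. For `r = 1 / 20` one can take `c = 1 / 2`.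

(2) For every nonzero real polynomial `P` in two variables there is `κ > 0` such that for every `r > 0` the relation
`P(γ, γ') = 0` has only finitely many solutions with `γ ∈ G r` and an ordinate `γ' ≠ γ`, `|γ' - γ| ≤ κ`. -/
theorem result :
    (∀ r c : ℝ, 0 < r → r ≤ 1 / 3 → 0 ≤ c → c < (3 * p r - 1) / 2 →
      ∃ T₀ : ℝ, ∀ T : ℝ, T₀ ≤ T → c * (N T : ℝ) ≤ ({γ | γ ∈ G r ∧ γ ≤ T}.ncard : ℝ)) ∧
    (∀ T : ℝ, {γ | γ ∈ Γ ∧ γ ≤ T}.Finite ∧ {γ | γ ∈ Γ ∧ γ ≤ T}.ncard ≤ N T) ∧
    (1 : ℝ) / 2 < (3 * p (1 / 20) - 1) / 2 ∧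
    (∀ P : MvPolynomial (Fin 2) ℝ, P ≠ 0 → ∃ κ : ℝ, 0 < κ ∧ ∀ r : ℝ, 0 < r →
      {z : ℝ × ℝ | z.1 ∈ G r ∧ z.2 ∈ Γ ∧ z.2 ≠ z.1 ∧ |z.2 - z.1| ≤ κ ∧
        MvPolynomial.eval ![z.1, z.2] P = 0}.Finite) :=
  ⟨fun r c hr0 hr hc0 hc => count r c hr0 hr hc0 hc,
    fun T => ⟨Γ_upTo_finite T, card_le_N T⟩, p_twentieth, relations⟩

end Pool.Agent.Results.MP_ec260d_nt.WellSpacedHalf
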